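import Pool.Agent.KTB.StmtsKD
import Pool.Agent.GEN.StmtsZD
import Pool.Agent.GEN.DefsI
import Pool.Agent.Helper51_KTB.KKL

/-! # Squad KTB, row KPI: killed slopes have isolated weak stable sets at all flat points -/

set_option autoImplicit false

namespace Pool.Agent.KTB.H58

open Finset Pool.Agent.Helper6_Mono Pool.Agent.Helper30_Simp Pool.Agent.Helper30_Simp2
open Pool.Agent.GEN
open scoped Classical

/-- nonempty subsets of stable sets are stable -/
theorem stab_sub {σ : Type} {I : Finset (σ →₀ ℕ)} {K K' : Finset σ} (h : Stab I K)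
    (hs : K' ⊆ K) (hn : K'.Nonempty) : Stab I K' :=
  ⟨hn, fun α hα => (Finset.sum_le_sum_of_subset hs).trans (h.2.1 α hα),
    fun j hj => h.2.2 j (hs hj)⟩

/-- minimal weak stable sets are circuits -/
theorem circ_of_min {σ : Type} {I : Finset (σ →₀ ℕ)} {K : Finset σ} (h : KS I K)
    (hm : ∀ K' : Finset σ, K' ⊂ K → ¬ KS I K') : Circ I K := by
  refine ⟨h, fun K' hK' hn hne => ?_⟩
  by_contra hlt
  push Not at hlt
  exact hm K' (Finset.ssubset_iff_subset_ne.2 ⟨hK', hne⟩) ⟨stab_sub h.1 hK' hn, hlt⟩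

/-- every weak stable set contains a circuit -/
theorem exists_min {σ : Type} {I : Finset (σ →₀ ℕ)} : ∀ (n : ℕ) (K : Finset σ), K.card = n →
    KS I K → ∃ K' ⊆ K, KS I K' ∧ ∀ K'' : Finset σ, K'' ⊂ K' → ¬ KS I K'' := by
  intro n
  induction n using Nat.strong_induction_on with
  | _ n ih =>
  intro K hn hK
  by_cases h : ∃ K' : Finset σ, K' ⊂ K ∧ KS I K'
  · obtain ⟨K', h1, h2⟩ := h
    obtain ⟨K'', h3, h4, h5⟩ := ih _ (by rw [← hn]; exact Finset.card_lt_card h1) K' rfl h2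
    exact ⟨K'', h3.trans h1.1, h4, h5⟩
  · push Not at h
    exact ⟨K, Finset.Subset.refl K, hK, h⟩

theorem iso_of (lmx : LmxStmt) {σ : Type} [Fintype σ] (I : Finset (σ →₀ ℕ)) (p : σ → Prop)
    (T : Finset σ) (hT : ∀ j, j ∈ T ↔ p j) (K₀ : Finset σ) (hKT : K₀ ⊆ T) (hK : KS I K₀)
    (hblk : ∀ P Q : Finset σ, P ⊆ K₀ → Q ⊆ T → ¬ BkM I P Q) :
    ∃ K : Finset σ, (∀ j ∈ K, p j) ∧ KS I K ∧ ∀ C : Finset σ, CircP I p C → Stab I (K ∪ C) := by
  obtain ⟨K, hKK, hK1, hK2⟩ := exists_min _ K₀ rfl hK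
  refine ⟨K, fun j hj => (hT j).1 (hKT (hKK hj)), hK1, ?_⟩
  rintro C ⟨hC0, hC1, hC2⟩
  refine ⟨hK1.1.1.mono Finset.subset_union_left, ?_, ?_⟩
  · intro α hα
    by_contra hlt
    have hsum : ∑ j ∈ K ∪ C, α j = ∑ j ∈ K, α j + ∑ j ∈ C \ K, α j := by
      rw [← Finset.sum_union (Finset.disjoint_sdiff), Finset.union_sdiff_self_eq_union]
    have e1 := hK1.1.2.1 α hα
    have e2 := hC1.1.2.1 α hα
    have e3 : ∑ j ∈ C \ K, α j ≤ ∑ j ∈ C, α j := Finset.sum_le_sum_of_subset Finset.sdiff_subset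
    have e4 : ∑ j ∈ K, α j = 1 := by omega
    have e5 : ∑ j ∈ C \ K, α j = 1 := by omega
    have key : ∀ D : Finset σ, ∑ j ∈ D, α j = 1 → ∃ j ∈ D, α j = 1 := by
      intro D hD
      have h1 : ∃ j ∈ D, α j ≠ 0 := by
        by_contra hcon
        push Not at hcon
        rw [Finset.sum_eq_zero hcon] at hD
        exact zero_ne_one hD
      obtain ⟨j, hj, hj0⟩ := h1
      refine ⟨j, hj, ?_⟩
      have h2 : α j ≤ ∑ j ∈ D, α j := Finset.single_le_sum (fun _ _ => Nat.zero_le _) hj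
      omega
    obtain ⟨j₁, hj₁, hα₁⟩ := key K e4
    obtain ⟨j₂, hj₂, hα₂⟩ := key (C \ K) e5
    have hj₂' := Finset.mem_sdiff.1 hj₂
    obtain ⟨P, Q, hP, hQ, -, hB⟩ := lmx σ I K C (circ_of_min hK1 hK2) (circ_of_min hC1 hC2)
      ⟨j₁, hj₁, j₂, hj₂'.1, fun h => hj₂'.2 (h ▸ hj₁), α, hα, hα₁, hα₂⟩
    refine hblk P Q (hP.trans hKK) (fun j hj => (hT j).2 (hC0 j (hQ hj))) ⟨hB.ne, ?_, hB.card, hB.once⟩
    rw [Finset.disjoint_left]
    exact hB.disj
  · intro j hj
    rcases Finset.mem_union.1 hj with h | h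
    · exact hK1.1.2.2 j h
    · exact hC1.1.2.2 j h

theorem kpi (kpn : KpnStmt) (lmx : LmxStmt) : KpiStmt := by
  intro σ _ M x hkill κ N hfp
  obtain ⟨hκ, S, hflat, hin⟩ := hfp
  have hsum := hflat κ N hin
  have hpos : 0 < ∑ i, κ i := by
    obtain ⟨i, hi⟩ := Function.ne_iff.1 hκ
    exact Finset.sum_pos' (fun _ _ => Nat.zero_le _)
      ⟨i, Finset.mem_univ i, Nat.pos_of_ne_zero hi⟩
  have hposq : (0 : ℚ) < ((∑ i, κ i : ℕ) : ℚ) := by exact_mod_cast hpos
  have hN : N ≠ 0 := by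
    rintro rfl
    rw [Nat.cast_zero, mul_zero] at hsum
    exact hposq.ne' hsum
  have hmin : ∀ α ∈ M, N ≤ dot κ α := by
    intro α hα
    have h1 := hin.1 (Sum.inr ⟨α, hα⟩)
    simp only [slk] at h1
    omega
  have hmem : ∀ α, α ∈ fce M κ ↔ α ∈ M ∧ dot κ α = N := by
    intro α
    unfold fce
    rw [Finset.mem_filter]
    constructor
    · rintro ⟨h1, h2⟩
      refine ⟨h1, ?_⟩
      have h3 := (H73.face_iff hflat hin hκ ⟨α, h1⟩).1 h2
      simp only [slk] at h3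
      omega
    · rintro ⟨h1, h2⟩
      refine ⟨h1, (H73.face_iff hflat hin hκ ⟨α, h1⟩).2 ?_⟩
      simp only [slk]
      omega
  have hFL : ∀ v : σ → ℚ, (∀ i, i ∉ univ.filter (fun j => κ j ≠ 0) → v i = 0) →
      (∀ α ∈ fce M κ, ∑ i, v i * (α i : ℚ) = 0) → ∑ i, v i = 0 := by
    intro v hv0' hvI
    have hv0 : ∀ i, κ i = 0 → v i = 0 := by
      intro i hi
      apply hv0'
      rw [Finset.mem_filter]
      exact fun h => h.2 hi
    obtain ⟨d, w, hd, hw⟩ := Pool.Agent.GEN.H34.clear_den v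
    have hdq : (d : ℚ) ≠ 0 := by exact_mod_cast hd
    have hw0 : ∀ i, κ i = 0 → w i = 0 := by
      intro i hi
      have h1 := hw i
      rw [hv0 i hi, mul_zero] at h1
      exact_mod_cast h1
    have hwI : ∀ α ∈ fce M κ, ∑ i, w i * (α i : ℤ) = 0 := by
      intro α hα
      have h1 := hvI α hα
      have h2 : ((∑ i, w i * (α i : ℤ) : ℤ) : ℚ) = 0 := by
        push_cast
        calc ∑ i, (w i : ℚ) * (α i : ℚ) = ∑ i, (d : ℚ) * (v i * (α i : ℚ)) :=
              Finset.sum_congr rfl fun i _ => by rw [hw i, mul_assoc]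
          _ = 0 := by rw [← Finset.mul_sum, h1, mul_zero]
      exact_mod_cast h2
    set n : ℕ := ∑ i, (w i).natAbs + ∑ α ∈ M, (∑ i, w i * (α i : ℤ)).natAbs with hn
    have hn1 : ∀ i, (w i).natAbs ≤ n := fun i =>
      (Finset.single_le_sum (f := fun i => (w i).natAbs) (fun _ _ => Nat.zero_le _)
        (Finset.mem_univ i)).trans (Nat.le_add_right _ _)
    have hn2 : ∀ α ∈ M, (∑ i, w i * (α i : ℤ)).natAbs ≤ n := fun α hα =>
      (Finset.single_le_sum (f := fun α : σ →₀ ℕ => (∑ i, w i * (α i : ℤ)).natAbs)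
        (fun _ _ => Nat.zero_le _) hα).trans (Nat.le_add_left _ _)
    have hu0 : ∀ i, 0 ≤ (n : ℤ) * (κ i : ℤ) + w i := by
      intro i
      by_cases hi : κ i = 0
      · rw [hw0 i hi, hi]
        simp
      · have h1 : (1 : ℤ) ≤ (κ i : ℤ) := by exact_mod_cast Nat.one_le_iff_ne_zero.2 hi
        have h2 : (n : ℤ) * 1 ≤ (n : ℤ) * (κ i : ℤ) :=
          mul_le_mul_of_nonneg_left h1 (Int.natCast_nonneg n)
        have h3 := hn1 i
        omega
    have hu : ∀ i, (((((n : ℤ) * (κ i : ℤ) + w i).toNat : ℕ)) : ℤ)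
        = (n : ℤ) * (κ i : ℤ) + w i := fun i => Int.toNat_of_nonneg (hu0 i)
    have hdot : ∀ α : σ →₀ ℕ,
        ((dot (fun i => ((n : ℤ) * (κ i : ℤ) + w i).toNat) α : ℕ) : ℤ)
          = (n : ℤ) * ((dot κ α : ℕ) : ℤ) + ∑ i, w i * (α i : ℤ) := by
      intro α
      rw [Pool.Agent.GEN.H34.dot_int, Pool.Agent.GEN.H34.dot_int, Finset.mul_sum,
        ← Finset.sum_add_distrib]
      refine Finset.sum_congr rfl fun i _ => ?_
      rw [hu i]
      ring
    have htight : ∀ α ∈ M, dot κ α = N →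
        ((dot (fun i => ((n : ℤ) * (κ i : ℤ) + w i).toNat) α : ℕ) : ℤ) - ((n * N : ℕ) : ℤ)
          = 0 := by
      intro α hα h1
      rw [hdot α, h1, hwI α ((hmem α).2 ⟨hα, h1⟩)]
      push_cast
      ring
    have hin' : InK M S (fun i => ((n : ℤ) * (κ i : ℤ) + w i).toNat) (n * N) := by
      refine ⟨fun ρ => ?_, fun ρ hρ => ?_⟩
      · rcases ρ with i | α
        · exact Int.natCast_nonneg _
        · show 0 ≤ ((dot (fun i => ((n : ℤ) * (κ i : ℤ) + w i).toNat)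
            (α : σ →₀ ℕ) : ℕ) : ℤ) - ((n * N : ℕ) : ℤ)
          by_cases h1 : dot κ (α : σ →₀ ℕ) = N
          · rw [htight α α.2 h1]
          · rw [hdot]
            have h2 := hmin α α.2
            have h3 : (N : ℤ) + 1 ≤ ((dot κ (α : σ →₀ ℕ) : ℕ) : ℤ) := by omega
            have h4 : (n : ℤ) * ((N : ℤ) + 1) ≤ (n : ℤ) * ((dot κ (α : σ →₀ ℕ) : ℕ) : ℤ) :=
              mul_le_mul_of_nonneg_left h3 (Int.natCast_nonneg n)
            have h5 := hn2 α α.2
            have h6 : -(n : ℤ) ≤ ∑ i, w i * ((α : σ →₀ ℕ) i : ℤ) := by omega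
            push_cast
            linarith only [h4, h6]
      · have h1 := hin.2 ρ hρ
        rcases ρ with i | α
        · simp only [slk] at h1
          have h2 : κ i = 0 := by exact_mod_cast h1
          show (((((n : ℤ) * (κ i : ℤ) + w i).toNat : ℕ)) : ℤ) = 0
          rw [hu i, hw0 i h2, h2]
          simp
        · simp only [slk] at h1
          exact htight α α.2 (by omega)
    have h1 := hflat _ _ hin'
    have h2 : ((∑ i, ((n : ℤ) * (κ i : ℤ) + w i).toNat : ℕ) : ℤ)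
        = (n : ℤ) * ((∑ i, κ i : ℕ) : ℤ) + ∑ i, w i := by
      push_cast
      rw [Finset.mul_sum, ← Finset.sum_add_distrib]
      refine Finset.sum_congr rfl fun i _ => ?_
      rw [← hu i]
      rfl
    have h3 : ((∑ i, ((n : ℤ) * (κ i : ℤ) + w i).toNat : ℕ) : ℚ)
        = (n : ℚ) * ((∑ i, κ i : ℕ) : ℚ) + ((∑ i, w i : ℤ) : ℚ) := by exact_mod_cast h2
    rw [h3, hsum] at h1
    have h4 : ((∑ i, w i : ℤ) : ℚ) = 0 := by
      push_cast at h1 ⊢
      linarith only [h1]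
    have h5 : (d : ℚ) * ∑ i, v i = 0 := by
      rw [← h4, Finset.mul_sum]
      push_cast
      exact Finset.sum_congr rfl fun i _ => (hw i).symm
    exact (mul_eq_zero.1 h5).resolve_left hdq
  obtain ⟨c, hc⟩ := H51.kkl_dual (fce M κ) (univ.filter fun j => κ j ≠ 0) hFL
  rcases kpn σ (fce M κ) (univ.filter fun j => κ j ≠ 0) c hc with h1 | ⟨K, hKT, hK, hblk⟩
  · exfalso
    obtain ⟨B, l, hBI, hind, hl, hpriv⟩ := h1
    have hfb : FlatBase M κ N B := by
      refine ⟨Nat.pos_of_ne_zero hN, hmin, fun α hα => ((hmem α).1 (hBI hα)).1, ?_,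
        fun α hα => ((hmem α).1 (hBI hα)).2, ?_, ?_⟩
      · obtain ⟨i, hi⟩ := Function.ne_iff.1 hκ
        by_contra hne
        rw [Finset.not_nonempty_iff_eq_empty] at hne
        have h2 := hl i (Finset.mem_filter.2 ⟨Finset.mem_univ i, hi⟩)
        rw [hne, Finset.sum_empty] at h2
        exact zero_ne_one h2
      · intro t ht
        have h1 := hind (fun α => (t α : ℚ)) (fun j => by
          have h2 := ht j
          have h3 : ((∑ α, t α * (((α : σ →₀ ℕ) j : ℕ) : ℤ) : ℤ) : ℚ) = 0 := by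
            rw [h2, Int.cast_zero]
          rw [← h3]
          push_cast
          rfl)
        funext α
        have h2 := congrFun h1 α
        rw [Pi.zero_apply] at h2 ⊢
        exact_mod_cast h2
      · intro v hv0 hvB
        have h2 : ∀ j, v j = ∑ α ∈ B, l α * (v j * (α j : ℚ)) := by
          intro j
          by_cases hj : κ j = 0
          · rw [hv0 j hj]
            simp
          · have h3 := hl j (Finset.mem_filter.2 ⟨Finset.mem_univ j, hj⟩)
            calc v j = v j * ∑ α ∈ B, l α * (α j : ℚ) := by rw [h3, mul_one]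
              _ = ∑ α ∈ B, l α * (v j * (α j : ℚ)) := by
                rw [Finset.mul_sum]
                exact Finset.sum_congr rfl fun α _ => by ring
        calc ∑ j, v j = ∑ j, ∑ α ∈ B, l α * (v j * (α j : ℚ)) :=
              Finset.sum_congr rfl fun j _ => h2 j
          _ = ∑ α ∈ B, ∑ j, l α * (v j * (α j : ℚ)) := Finset.sum_comm
          _ = ∑ α ∈ B, l α * ∑ j, v j * (α j : ℚ) :=
              Finset.sum_congr rfl fun α _ => by rw [Finset.mul_sum]
          _ = 0 := Finset.sum_eq_zero fun α hα => by rw [hvB α hα, mul_zero]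
    obtain ⟨A, hA, j, ⟨hj1, hj2, hj3⟩, huniq⟩ := hkill κ N B hfb hsum
    obtain ⟨i, hiT, hij, hi1, hi2⟩ := hpriv A hA j
      (Finset.mem_filter.2 ⟨Finset.mem_univ j, hj1⟩) hj2 hj3
    exact hij (huniq i ⟨(Finset.mem_filter.1 hiT).2, hi1, hi2⟩)
  · exact iso_of lmx (fce M κ) (fun j => κ j ≠ 0) (univ.filter fun j => κ j ≠ 0)
      (fun j => by simp) K hKT hK hblk

end Pool.Agent.KTB.H58
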