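import Pool.Agent.Helper92_KTB.KPM
import Pool.Agent.Helper41_KTB.KVK
import Pool.Agent.GEN.DefsI

/-!
# Squad KTB, bridge: weak stable sets of variables and the data of a set of monomials
-/

set_option autoImplicit false
set_option linter.unusedSectionVars false

namespace Pool.Agent.KTB.H58

open Finset Pool.Agent.KTB
open scoped Classical

variable {σ : Type} [Fintype σ]

/-- the span of the monomials which meet `K` -/
noncomputable def Wsp (I : Finset (σ →₀ ℕ)) (K : Finset σ) : Submodule ℚ (σ → ℚ) :=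
  Submodule.span ℚ {v : σ → ℚ | ∃ α ∈ I, (∃ j ∈ K, α j = 1) ∧ v = fun i => (α i : ℚ)}

theorem kvk_le (I : Finset (σ →₀ ℕ)) (K : Finset σ) (hst : Pool.Agent.GEN.Stab I K) :
    Module.finrank ℚ (Wsp I K) ≤ Module.finrank ℚ (Pool.Agent.GEN.VK I K) + K.card := by
  obtain ⟨-, -, hex⟩ := hst
  choose a ha ha1 using hex
  let b : K → (σ → ℚ) := fun j i => ((a j j.2 i : ℕ) : ℚ)
  have h1 : Wsp I K ≤ Pool.Agent.GEN.VK I K ⊔ Submodule.span ℚ (Set.range b) := by
    unfold Wsp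
    rw [Submodule.span_le]
    rintro v ⟨α, hα, ⟨j, hj, hj1⟩, rfl⟩
    have e1 : (fun i => (α i : ℚ)) =
        (fun i => (α i : ℚ) - ((a j hj i : ℕ) : ℚ)) + b ⟨j, hj⟩ := by
      funext i
      simp [b]
    rw [e1]
    refine Submodule.add_mem _ (Submodule.mem_sup_left ?_) (Submodule.mem_sup_right ?_)
    · unfold Pool.Agent.GEN.VK
      exact Submodule.subset_span ⟨j, hj, α, hα, a j hj, ha j hj, hj1, ha1 j hj, rfl⟩
    · exact Submodule.subset_span ⟨_, rfl⟩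
  have h2 : Module.finrank ℚ (Submodule.span ℚ (Set.range b)) ≤ K.card := by
    have := finrank_range_le_card (R := ℚ) b
    rwa [Fintype.card_coe] at this
  have h3 := Submodule.finrank_mono h1
  have h4 := Submodule.finrank_add_le_finrank_add_finrank (Pool.Agent.GEN.VK I K)
    (Submodule.span ℚ (Set.range b))
  omega

/-- stable sets of variables, seen in the data -/
def DSt {ι T : Type} [Fintype ι] (D : Dat ι T) (K : Finset T) : Prop :=
  K.Nonempty ∧ (∀ a, ∑ k ∈ K, D.x k a ≤ 1) ∧ ∀ k ∈ K, ∃ a, D.x k a = 1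

theorem stab_iff (I : Finset (σ →₀ ℕ)) (T : Finset σ) (c : (σ →₀ ℕ) → ℚ)
    (hc : ∀ j ∈ T, ∑ α ∈ I, c α * (α j : ℚ) = 1) (K : Finset T) :
    Pool.Agent.GEN.Stab I (K.map (Function.Embedding.subtype _)) ↔
      DSt (H92.dat I T c hc) K := by
  unfold Pool.Agent.GEN.Stab DSt
  constructor
  · rintro ⟨h1, h2, h3⟩
    refine ⟨?_, ?_, ?_⟩
    · rwa [Finset.map_nonempty] at h1
    · intro a
      have := h2 a a.2
      rw [Finset.sum_map] at this
      exact this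
    · intro k hk
      obtain ⟨α, hα, h⟩ := h3 k (Finset.mem_map.2 ⟨k, hk, rfl⟩)
      exact ⟨⟨α, hα⟩, h⟩
  · rintro ⟨h1, h2, h3⟩
    refine ⟨?_, ?_, ?_⟩
    · rwa [Finset.map_nonempty]
    · intro α hα
      rw [Finset.sum_map]
      exact h2 ⟨α, hα⟩
    · intro j hj
      obtain ⟨k, hk, rfl⟩ := Finset.mem_map.1 hj
      obtain ⟨a, ha⟩ := h3 k hk
      exact ⟨a, a.2, ha⟩

theorem rank_eq (I : Finset (σ →₀ ℕ)) (T : Finset σ) (c : (σ →₀ ℕ) → ℚ)
    (hc : ∀ j ∈ T, ∑ α ∈ I, c α * (α j : ℚ) = 1) (K : Finset T)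
    (hK : DSt (H92.dat I T c hc) K) :
    Module.finrank ℚ (Wsp I (K.map (Function.Embedding.subtype _)))
      + (H92.dat I T c hc).nul ((H92.dat I T c hc).EK univ K)
      = ((H92.dat I T c hc).EK univ K).card := by
  obtain ⟨D, hD⟩ : ∃ D : Dat I T, D = H92.dat I T c hc := ⟨_, rfl⟩
  have hx : ∀ (j : T) (a : I), D.x j a = (a : σ →₀ ℕ) j := by
    intro j a; rw [hD]; rfl
  have hrel : ∀ ρ : I → ℚ, ρ ∈ D.rel ↔ ∀ i : σ, ∑ a : I, ρ a * (((a : σ →₀ ℕ) i : ℕ) : ℚ) = 0 := by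
    intro ρ; rw [hD]; rfl
  rw [← hD] at hK ⊢
  obtain ⟨hK0, hK1, hK2⟩ := hK
  obtain ⟨E, hE⟩ : ∃ E : Finset I, E = D.EK univ K := ⟨_, rfl⟩
  obtain ⟨K', hK'⟩ : ∃ K' : Finset σ, K' = K.map (Function.Embedding.subtype _) := ⟨_, rfl⟩
  rw [← hE, ← hK']
  have hsum : ∀ α ∈ I, ∑ j ∈ K', α j ≤ 1 := by
    intro α hα
    rw [hK', Finset.sum_map]
    have := hK1 ⟨α, hα⟩
    simp only [hx] at this
    exact this
  have hmemE : ∀ a : I, a ∈ E ↔ ∃ k ∈ K, (a : σ →₀ ℕ) k ≠ 0 := by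
    intro a
    rw [hE]
    unfold Dat.EK
    rw [Finset.mem_filter]
    simp only [hx, Finset.mem_univ, true_and]
  obtain ⟨Φ, hΦ⟩ : ∃ Φ : (E → ℚ) →ₗ[ℚ] (σ → ℚ), Φ =
      Fintype.linearCombination ℚ (fun (a : E) (i : σ) => ((((a : I) : σ →₀ ℕ) i : ℕ) : ℚ)) :=
    ⟨_, rfl⟩
  have hrange : LinearMap.range Φ = Wsp I K' := by
    unfold Wsp
    rw [hΦ, Fintype.range_linearCombination]
    congr 1
    ext v
    constructor
    · rintro ⟨a, rfl⟩
      obtain ⟨k, hk, hka⟩ := (hmemE a).1 a.2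
      refine ⟨(a : I), (a : I).2, ⟨k, ?_, ?_⟩, rfl⟩
      · rw [hK']
        exact Finset.mem_map.2 ⟨k, hk, rfl⟩
      · have h2 := hsum (a : I) (a : I).2
        have h3 : ((a : I) : σ →₀ ℕ) k ≤ ∑ j ∈ K', ((a : I) : σ →₀ ℕ) j :=
          Finset.single_le_sum (f := fun j => ((a : I) : σ →₀ ℕ) j) (fun _ _ => Nat.zero_le _)
            (by rw [hK']; exact Finset.mem_map.2 ⟨k, hk, rfl⟩)
        omega
    · rintro ⟨α, hα, ⟨j, hj, hj1⟩, rfl⟩
      rw [hK'] at hj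
      obtain ⟨k, hk, rfl⟩ := Finset.mem_map.1 hj
      have : (⟨α, hα⟩ : I) ∈ E := (hmemE _).2 ⟨k, hk, by
        have h9 : α (k : σ) = 1 := hj1
        show α (k : σ) ≠ 0
        omega⟩
      exact ⟨⟨⟨α, hα⟩, this⟩, rfl⟩
  -- the kernel
  have hker : D.nul E = Module.finrank ℚ (LinearMap.ker Φ) := by
    let res : (I → ℚ) →ₗ[ℚ] (E → ℚ) := LinearMap.funLeft ℚ ℚ (fun a : E => (a : I))
    have hcomp : ∀ ρ : I → ℚ, (∀ a, a ∉ E → ρ a = 0) → ∀ i, (Φ (res ρ)) i =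
        ∑ a : I, ρ a * (((a : σ →₀ ℕ) i : ℕ) : ℚ) := by
      intro ρ hρ i
      rw [hΦ, Fintype.linearCombination_apply, Finset.sum_apply]
      have h3 : ∑ a : I, ρ a * (((a : σ →₀ ℕ) i : ℕ) : ℚ) =
          ∑ a ∈ E, ρ a * (((a : σ →₀ ℕ) i : ℕ) : ℚ) := by
        symm
        apply Finset.sum_subset (Finset.subset_univ E)
        intro a _ ha
        rw [hρ a ha, zero_mul]
      rw [h3, ← Finset.sum_coe_sort E (fun a : I => ρ a * (((a : σ →₀ ℕ) i : ℕ) : ℚ))]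
      refine Finset.sum_congr rfl fun a _ => ?_
      rfl
    have hres : ∀ ρ ∈ D.R E, res ρ ∈ LinearMap.ker Φ := by
      intro ρ hρ
      rw [LinearMap.mem_ker]
      funext i
      rw [hcomp ρ hρ.2 i]
      exact (hrel _).1 hρ.1 i
    have hinj : Function.Injective (res.restrict hres) := by
      rw [injective_iff_map_eq_zero]
      intro ρ hρ
      apply Subtype.ext
      funext a
      by_cases ha : a ∈ E
      · have h4 : (((res.restrict hres) ρ : LinearMap.ker Φ) : E → ℚ) ⟨a, ha⟩ = 0 := by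
          rw [hρ]
          rfl
        exact h4
      · exact ρ.2.2 a ha
    have hsurj : Function.Surjective (res.restrict hres) := by
      rintro ⟨g, hg⟩
      obtain ⟨ρ, hρ⟩ : ∃ ρ : I → ℚ, ∀ a, ρ a = if h : a ∈ E then g ⟨a, h⟩ else 0 :=
        ⟨_, fun _ => rfl⟩
      have h0 : ∀ a, a ∉ E → ρ a = 0 := fun a ha => by rw [hρ, dif_neg ha]
      have hrg : res ρ = g := by
        funext a
        show ρ (a : I) = g a
        rw [hρ, dif_pos a.2]
      have hmem : ρ ∈ D.R E := by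
        refine ⟨?_, h0⟩
        rw [hrel]
        intro i
        rw [← hcomp ρ h0 i, hrg]
        have := LinearMap.mem_ker.1 hg
        rw [this]
        rfl
      exact ⟨⟨ρ, hmem⟩, Subtype.ext hrg⟩
    exact (LinearEquiv.ofBijective (res.restrict hres) ⟨hinj, hsurj⟩).finrank_eq
  have hrn := LinearMap.finrank_range_add_finrank_ker Φ
  rw [hrange, Module.finrank_fintype_fun_eq_card, Fintype.card_coe] at hrn
  omega

/-- weak stable sets, seen in the data -/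
theorem ks_iff (I : Finset (σ →₀ ℕ)) (T : Finset σ) (c : (σ →₀ ℕ) → ℚ)
    (hc : ∀ j ∈ T, ∑ α ∈ I, c α * (α j : ℚ) = 1) (K : Finset T) :
    Pool.Agent.GEN.KS I (K.map (Function.Embedding.subtype _)) ↔
      DSt (H92.dat I T c hc) K ∧ ((H92.dat I T c hc).EK univ K).card
        < 2 * K.card + (H92.dat I T c hc).nul ((H92.dat I T c hc).EK univ K) := by
  unfold Pool.Agent.GEN.KS
  rw [stab_iff I T c hc K, Finset.card_map]
  constructor
  · rintro ⟨h1, h2⟩
    refine ⟨h1, ?_⟩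
    have h3 := rank_eq I T c hc K h1
    have h4 := kvk_le I _ ((stab_iff I T c hc K).2 h1)
    rw [Finset.card_map] at h4
    omega
  · rintro ⟨h1, h2⟩
    refine ⟨h1, ?_⟩
    have h3 := rank_eq I T c hc K h1
    have h4 := H41.kvk σ I _ ((stab_iff I T c hc K).2 h1)
    rw [Finset.card_map] at h4
    have h5 : Module.finrank ℚ (Wsp I (K.map (Function.Embedding.subtype _))) =
        Module.finrank ℚ (Submodule.span ℚ {v : σ → ℚ | ∃ α ∈ I,
          (∃ j ∈ K.map (Function.Embedding.subtype _), α j = 1) ∧ v = fun i => (α i : ℚ)}) := rfl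
    rw [← h5] at h4
    omega

end Pool.Agent.KTB.H58
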